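import Pool.Agent.Helper63.XP.StA

/-!
# Project XP, module ADJ: the adjoint matrix, the number of vertices of a layer
-/

set_option autoImplicit false

namespace Pool.Agent.Helper73.XP

open Finset Pool.Agent.Helper63.XP

theorem hADJ : StAdj := by
  intro P _ _ k b d m J Q B g
  refine ⟨?_, ?_⟩
  · intro l hl y
    set z : P → ℂ := fun v => if g.lev v = l then ∑ c ∈ g.ch v, star (g.σ c v) * y c else 0 with hz
    have hZ : ∑ v ∈ univ.filter (fun v => g.lev v = l), ‖∑ c ∈ g.ch v, star (g.σ c v) * y c‖ ^ 2 =
        ∑ v, ‖z v‖ ^ 2 := by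
      rw [sum_filter]
      refine sum_congr rfl fun v _ => ?_
      by_cases h : g.lev v = l
      · rw [if_pos h, hz]
        dsimp only
        rw [if_pos h]
      · rw [if_neg h, hz]
        dsimp only
        rw [if_neg h]
        simp
    rw [hZ]
    set a : P → ℂ := fun c => ∑ v ∈ univ.filter (fun v => g.lev v = l ∧ c ∈ g.ch v), g.σ c v * z v with ha
    have hA : ∑ c, ‖a c‖ ^ 2 ≤ B l * ∑ v, ‖z v‖ ^ 2 := g.l2 l hl z
    have hY : 0 ≤ B l * ∑ v, ‖y v‖ ^ 2 := le_trans (by positivity) (g.l2 l hl y)
    have key : ((∑ v, ‖z v‖ ^ 2 : ℝ) : ℂ) = ∑ c, y c * star (a c) := by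
      calc ((∑ v, ‖z v‖ ^ 2 : ℝ) : ℂ) = ∑ v, z v * star (z v) := by
            push_cast
            refine sum_congr rfl fun v _ => ?_
            rw [Complex.star_def, Complex.mul_conj, Complex.normSq_eq_norm_sq]
            push_cast
            rfl
        _ = ∑ v, ∑ c, (if g.lev v = l ∧ c ∈ g.ch v then star (g.σ c v) * y c * star (z v) else 0) := by
            refine sum_congr rfl fun v _ => ?_
            by_cases h : g.lev v = l
            · simp only [h, true_and]
              rw [← sum_filter]
              have h1 : univ.filter (fun c => c ∈ g.ch v) = g.ch v := by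
                ext c
                simp
              rw [h1, ← sum_mul]
              congr 1
              rw [hz]
              dsimp only
              rw [if_pos h]
            · simp only [h, false_and, if_false, sum_const_zero]
              rw [hz]
              dsimp only
              rw [if_neg h, zero_mul]
        _ = ∑ c, ∑ v, (if g.lev v = l ∧ c ∈ g.ch v then star (g.σ c v) * y c * star (z v) else 0) := sum_comm
        _ = ∑ c, y c * star (a c) := by
            refine sum_congr rfl fun c _ => ?_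
            rw [ha]
            dsimp only
            rw [star_sum, mul_sum, sum_filter]
            refine sum_congr rfl fun v _ => ?_
            split_ifs
            · rw [star_mul']
              ring
            · rfl
    have h1 : ∑ v, ‖z v‖ ^ 2 ≤ ∑ c, ‖y c‖ * ‖a c‖ := by
      have h2 := congrArg norm key
      rw [Complex.norm_real, Real.norm_of_nonneg (by positivity)] at h2
      rw [h2]
      refine (norm_sum_le _ _).trans (le_of_eq ?_)
      refine sum_congr rfl fun c _ => ?_
      rw [norm_mul, norm_star]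
    have h2 := Finset.sum_mul_sq_le_sq_mul_sq univ (fun c => ‖y c‖) (fun c => ‖a c‖)
    have h0 : 0 ≤ ∑ v, ‖z v‖ ^ 2 := by positivity
    have hy0 : 0 ≤ ∑ v, ‖y v‖ ^ 2 := by positivity
    have h3 : (∑ v, ‖z v‖ ^ 2) ^ 2 ≤ (B l * ∑ v, ‖y v‖ ^ 2) * ∑ v, ‖z v‖ ^ 2 := by
      calc (∑ v, ‖z v‖ ^ 2) ^ 2 ≤ (∑ c, ‖y c‖ * ‖a c‖) ^ 2 := pow_le_pow_left₀ h0 h1 2
        _ ≤ (∑ c, ‖y c‖ ^ 2) * ∑ c, ‖a c‖ ^ 2 := h2
        _ ≤ (∑ c, ‖y c‖ ^ 2) * (B l * ∑ v, ‖z v‖ ^ 2) := mul_le_mul_of_nonneg_left hA hy0
        _ = _ := by ring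
    rcases h0.eq_or_lt with h4 | h4
    · rw [← h4]
      exact hY
    · rw [pow_two] at h3
      exact le_of_mul_le_mul_right h3 h4
  · intro S _ _ t l hl
    rw [← g.card_lev l hl]
    have h1 : Al g t l = (univ.filter fun s => t s = 1) ×ˢ (univ.filter fun v => g.lev v = l) := by
      ext j
      simp [Al]
    rw [h1, card_product]
    push_cast
    rfl

end Pool.Agent.Helper73.XP
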